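import Mathlib

/-!
# Project ESV, job ACT: the setting exists (the part which uses only Mathlib)
-/

set_option autoImplicit false

namespace Pool.Agent.Q186.ESV

open IntermediateField

/-- the field of the setting -/
theorem field_step (F : Type) [Field F] [NumberField F]
    (L : IntermediateField F (AlgebraicClosure F)) [FiniteDimensional F L] :
    ∃ K : IntermediateField F (AlgebraicClosure F), L ≤ K ∧ FiniteDimensional F K ∧
      Normal F K ∧ NumberField K ∧ IsGalois ℚ K := by
  have : Algebra.IsAlgebraic ℚ (AlgebraicClosure F) := Algebra.IsAlgebraic.trans ℚ F _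
  have : IsAlgClosure ℚ (AlgebraicClosure F) := ⟨inferInstance, inferInstance⟩
  have : Normal ℚ (AlgebraicClosure F) := IsAlgClosure.normal ℚ _
  have : FiniteDimensional ℚ L := FiniteDimensional.trans ℚ F L
  set N := normalClosure ℚ L (AlgebraicClosure F) with hN
  have hL : ∀ x ∈ L, x ∈ N := by
    intro x hx
    exact AlgHom.fieldRange_le_normalClosure (IsScalarTower.toAlgHom ℚ L (AlgebraicClosure F))
      ⟨⟨x, hx⟩, rfl⟩
  let K : IntermediateField F (AlgebraicClosure F) :=
    N.toSubfield.toIntermediateField (fun x => hL _ (L.algebraMap_mem x))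
  have hLK : L ≤ K := hL
  have hNfin : FiniteDimensional ℚ N := normalClosure.is_finiteDimensional ℚ L (AlgebraicClosure F)
  have hNn : Normal ℚ N := normalClosure.normal ℚ L (AlgebraicClosure F)
  have hNg : IsGalois ℚ N := ⟨⟩
  let e : N ≃+* K := RingEquiv.refl N
  have hc : CharZero K := charZero_of_injective_algebraMap (algebraMap F K).injective
  let e' : N ≃ₐ[ℚ] K := AlgEquiv.ofRingEquiv (f := e) (fun r => by
    simp)
  have hg : IsGalois ℚ K := IsGalois.of_algEquiv e'
  have hf : FiniteDimensional ℚ K := LinearEquiv.finiteDimensional e'.toLinearEquiv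
  have hnf : NumberField K := ⟨⟩
  have : IsScalarTower ℚ F K := inferInstance
  have : FiniteDimensional F K := FiniteDimensional.right ℚ F K
  have : Normal F K := Normal.tower_top_of_normal ℚ F K
  exact ⟨K, hLK, inferInstance, inferInstance, inferInstance, inferInstance⟩

section W

variable (F : Type) [Field F] (W : Type) [AddCommGroup W]
  [DistribMulAction (AlgebraicClosure F ≃ₐ[F] AlgebraicClosure F) W]

/-- the elements killed by two -/
def tors (W : Type) [AddCommGroup W] : AddSubgroup W where
  carrier := {w | w + w = 0}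
  zero_mem' := by simp
  add_mem' := by
    intro a b ha hb
    have e : (a + b) + (a + b) = (a + a) + (b + b) := by abel
    show (a + b) + (a + b) = 0
    rw [e, show a + a = 0 from ha, show b + b = 0 from hb, add_zero]
  neg_mem' := by
    intro a ha
    have e : -a + -a = -(a + a) := by abel
    show -a + -a = 0
    rw [e, show a + a = 0 from ha, neg_zero]

theorem mem_tors {W : Type} [AddCommGroup W] {w : W} : w ∈ tors W ↔ w + w = 0 := Iff.rfl

variable {F W}

theorem smul_tors (σ : AlgebraicClosure F ≃ₐ[F] AlgebraicClosure F) {w : W} (hw : w ∈ tors W) :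
    σ • w ∈ tors W := by
  rw [mem_tors] at hw ⊢
  rw [← smul_add, hw, smul_zero]

variable (K : IntermediateField F (AlgebraicClosure F)) [Normal F K]

/-- the action depends only on the restriction to `K` -/
theorem key (hfix : ∀ σ ∈ K.fixingSubgroup, ∀ w ∈ tors W, σ • w = w)
    (σ σ' : AlgebraicClosure F ≃ₐ[F] AlgebraicClosure F)
    (h : AlgEquiv.restrictNormalHom K σ = AlgEquiv.restrictNormalHom K σ') (w : W)
    (hw : w ∈ tors W) : σ • w = σ' • w := by
  have h1 : σ'⁻¹ * σ ∈ K.fixingSubgroup := by
    rw [← IntermediateField.restrictNormalHom_ker, MonoidHom.mem_ker, map_mul, map_inv, h,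
      inv_mul_cancel]
  have h2 := hfix _ h1 w hw
  rw [mul_smul, inv_smul_eq_iff] at h2
  exact h2

theorem rs_iff (σ : AlgebraicClosure F ≃ₐ[F] AlgebraicClosure F) (g : K ≃ₐ[F] K)
    (h : ∀ x : K, σ (K.val x) = K.val (g x)) : AlgEquiv.restrictNormalHom K σ = g := by
  ext x
  have h1 := AlgEquiv.restrictNormal_commutes σ K x
  have h2 : ((AlgEquiv.restrictNormalHom K σ) x : AlgebraicClosure F) =
    algebraMap K (AlgebraicClosure F) (σ.restrictNormal K x) := rfl
  rw [h2, h1]
  exact h x

theorem rs_self (σ : AlgebraicClosure F ≃ₐ[F] AlgebraicClosure F) (x : K) :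
    σ (K.val x) = K.val (AlgEquiv.restrictNormalHom K σ x) :=
  (AlgEquiv.restrictNormal_commutes σ K x).symm

/-- a lift -/
noncomputable def lf (g : K ≃ₐ[F] K) : AlgebraicClosure F ≃ₐ[F] AlgebraicClosure F :=
  Function.surjInv (AlgEquiv.restrictNormalHom_surjective (F := F) (K₁ := K)
    (AlgebraicClosure F)) g

theorem lf_spec (g : K ≃ₐ[F] K) : AlgEquiv.restrictNormalHom K (lf K g) = g :=
  Function.surjInv_eq _ g

/-- the action of the Galois group of `K` on the elements killed by two -/
@[reducible] noncomputable def actK (hfix : ∀ σ ∈ K.fixingSubgroup, ∀ w ∈ tors W, σ • w = w) :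
    DistribMulAction (K ≃ₐ[F] K) (tors W) where
  smul g v := ⟨lf K g • (v : W), smul_tors _ v.2⟩
  one_smul v := by
    apply Subtype.ext
    show lf K 1 • (v : W) = v
    have h := key K hfix (lf K 1) 1 (by rw [lf_spec, map_one]) v v.2
    rw [h, one_smul]
  mul_smul g h v := by
    apply Subtype.ext
    show lf K (g * h) • (v : W) = lf K g • (lf K h • (v : W))
    have h := key K hfix (lf K (g * h)) (lf K g * lf K h) (by
      rw [map_mul, lf_spec, lf_spec, lf_spec]) v v.2
    rw [h, mul_smul]
  smul_zero g := by
    apply Subtype.ext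
    show lf K g • (0 : W) = 0
    rw [smul_zero]
  smul_add g a b := by
    apply Subtype.ext
    show lf K g • ((a : W) + b) = lf K g • (a : W) + lf K g • (b : W)
    rw [smul_add]

theorem actK_val (hfix : ∀ σ ∈ K.fixingSubgroup, ∀ w ∈ tors W, σ • w = w)
    (σ : AlgebraicClosure F ≃ₐ[F] AlgebraicClosure F) (v : tors W) :
    (((actK K hfix).toSMul.smul (AlgEquiv.restrictNormalHom K σ) v : tors W) : W) =
      σ • (v : W) :=
  key K hfix _ _ (lf_spec K _) v v.2

/-- an open subgroup which acts trivially -/
theorem fix_step (hst : ∀ w : W, ∃ L : IntermediateField F (AlgebraicClosure F),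
      FiniteDimensional F L ∧ ∀ σ ∈ L.fixingSubgroup, σ • w = w)
    (hfin : {w : W | w + w = 0}.Finite) :
    ∃ L : IntermediateField F (AlgebraicClosure F), FiniteDimensional F L ∧
      ∀ σ ∈ L.fixingSubgroup, ∀ w ∈ tors W, σ • w = w := by
  choose L hL hf using hst
  have : Finite (tors W) := hfin
  refine ⟨⨆ w : tors W, L w, ?_, ?_⟩
  · have : ∀ w : tors W, FiniteDimensional F (L w) := fun w => hL w
    exact IntermediateField.finiteDimensional_iSup_of_finite
  · intro σ hσ w hw
    exact hf w σ (IntermediateField.fixingSubgroup_antitone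
      (le_iSup (fun w : tors W => L w) ⟨w, hw⟩) hσ)

end W

end Pool.Agent.Q186.ESV
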